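import Pool.Agent.H3.Y.Df

/-! The lower bound `31/64` for the squares of the codegrees (helper68). -/

set_option autoImplicit false
open Finset Pool.Agent.H3.Y

namespace Pool.Agent.H63.L2

open Classical

noncomputable section

variable {V : Type} [Fintype V]

/-- the sum of the entries of the matrix -/
def par (A : Finset V) (M : V → V → ZMod 2) (e : Finset V) : ZMod 2 := ∑ x ∈ e ∩ A, ∑ y ∈ e \ A, M x y

/-- the `4`-graph of a matrix -/
def Hg (A : Finset V) (M : V → V → ZMod 2) : Finset (Finset V) :=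
  (univ : Finset (Finset V)).filter fun e =>
    e.card = 4 ∧ (Odd (e ∩ A).card ∨ ((e ∩ A).card = 2 ∧ par A M e = 1))

theorem mem_Hg {A : Finset V} {M : V → V → ZMod 2} {e : Finset V} :
    e ∈ Hg A M ↔ e.card = 4 ∧ (Odd (e ∩ A).card ∨ ((e ∩ A).card = 2 ∧ par A M e = 1)) := by
  unfold Hg
  simp only [mem_filter, mem_univ, true_and]

theorem four (A : Finset V) (M : V → V → ZMod 2) : FourGraph (Hg A M) := fun _ he => (mem_Hg.1 he).1

theorem zmod_three (G : ZMod 2) (h : (3 : ZMod 2) * G - G = 3) : False := by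
  revert G
  decide

theorem k5 (A : Finset V) (M : V → V → ZMod 2) : K5Free (Hg A M) := by
  rintro ⟨S, hS, hsub⟩
  have hcard : (S ∩ A).card + (S \ A).card = 5 := by rw [card_inter_add_card_sdiff, hS]
  rcases Nat.lt_or_ge 3 (S ∩ A).card with h | h
  · obtain ⟨e, he1, he2⟩ := exists_subset_card_eq (show 4 ≤ (S ∩ A).card by omega)
    have h3 := hsub (mem_powersetCard.2 ⟨he1.trans inter_subset_left, he2⟩)
    rw [mem_Hg, inter_eq_left.2 (he1.trans inter_subset_right), he2] at h3
    rcases h3.2 with h5 | h5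
    · exact absurd h5 (by decide)
    · omega
  rcases Nat.lt_or_ge (S ∩ A).card 2 with h1 | h1
  · obtain ⟨e, he1, he2⟩ := exists_subset_card_eq (show 4 ≤ (S \ A).card by omega)
    have h3 := hsub (mem_powersetCard.2 ⟨he1.trans sdiff_subset, he2⟩)
    have h4 : e ∩ A = ∅ := by
      rw [← disjoint_iff_inter_eq_empty]
      exact disjoint_of_subset_left he1 sdiff_disjoint
    rw [mem_Hg, h4, card_empty] at h3
    rcases h3.2 with h5 | h5
    · exact absurd h5 (by decide)
    · omega
  have herase : ∀ w ∈ S, S.erase w ∈ Hg A M := fun w hw =>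
    hsub (mem_powersetCard.2 ⟨erase_subset _ _, by rw [card_erase_of_mem hw, hS]⟩)
  rcases Nat.lt_or_ge 2 (S ∩ A).card with h2 | h2
  · have hA : (S ∩ A).card = 3 := by omega
    set g : V → ZMod 2 := fun x => ∑ y ∈ S \ A, M x y with hg
    have key : ∀ w ∈ S ∩ A, (∑ x ∈ S ∩ A, g x) - g w = 1 := by
      intro w hw
      have hw' := mem_inter.1 hw
      have h3 := herase w hw'.1
      have e1 : S.erase w ∩ A = (S ∩ A).erase w := by
        ext v
        simp only [mem_inter, mem_erase]
        tauto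
      have e2 : S.erase w \ A = S \ A := by
        ext v
        simp only [mem_sdiff, mem_erase]
        constructor
        · rintro ⟨⟨_, h⟩, h'⟩
          exact ⟨h, h'⟩
        · rintro ⟨h, h'⟩
          exact ⟨⟨fun hv => h' (hv ▸ hw'.2), h⟩, h'⟩
      rw [mem_Hg, e1, card_erase_of_mem hw, hA] at h3
      rcases h3.2 with h5 | h5
      · exact absurd h5 (by decide)
      · have h6 := h5.2
        unfold par at h6
        rw [e1, e2] at h6
        rw [← h6, ← Finset.sum_erase_eq_sub hw]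
    have h4 := Finset.sum_congr rfl key
    rw [Finset.sum_sub_distrib, Finset.sum_const, Finset.sum_const, hA, nsmul_eq_mul,
      nsmul_eq_mul, mul_one] at h4
    exact zmod_three _ h4
  · have hA : (S ∩ A).card = 2 := by omega
    have hB : (S \ A).card = 3 := by omega
    set g : V → ZMod 2 := fun y => ∑ x ∈ S ∩ A, M x y with hg
    have key : ∀ w ∈ S \ A, (∑ y ∈ S \ A, g y) - g w = 1 := by
      intro w hw
      have hw' := mem_sdiff.1 hw
      have h3 := herase w hw'.1
      have e1 : S.erase w ∩ A = S ∩ A := by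
        ext v
        simp only [mem_inter, mem_erase]
        constructor
        · rintro ⟨⟨_, h⟩, h'⟩
          exact ⟨h, h'⟩
        · rintro ⟨h, h'⟩
          exact ⟨⟨fun hv => hw'.2 (hv ▸ h'), h⟩, h'⟩
      have e2 : S.erase w \ A = (S \ A).erase w := by
        ext v
        simp only [mem_sdiff, mem_erase]
        tauto
      rw [mem_Hg, e1, hA] at h3
      rcases h3.2 with h5 | h5
      · exact absurd h5 (by decide)
      · have h6 := h5.2
        unfold par at h6
        rw [e1, e2, Finset.sum_comm] at h6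
        rw [← h6, ← Finset.sum_erase_eq_sub hw]
    have h4 := Finset.sum_congr rfl key
    rw [Finset.sum_sub_distrib, Finset.sum_const, Finset.sum_const, hB, nsmul_eq_mul,
      nsmul_eq_mul, mul_one] at h4
    exact zmod_three _ h4

/-- weights -/
def q (j : ℕ) : ℕ := if Odd j then 2 else if j = 2 then 1 else 0

theorem half (A e : Finset V) (he : e.card = 4) (h2 : (e ∩ A).card = 2) :
    2 * ((univ : Finset (V → V → ZMod 2)).filter fun M => par A M e = 1).card =
      Fintype.card (V → V → ZMod 2) := by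
  have h3 : (e \ A).card = 2 := by
    have := card_inter_add_card_sdiff e A
    omega
  obtain ⟨x0, hx0⟩ := card_pos.1 (show 0 < (e ∩ A).card by omega)
  obtain ⟨y0, hy0⟩ := card_pos.1 (show 0 < (e \ A).card by omega)
  set δ : V → V → ZMod 2 := fun x y => if x = x0 then (if y = y0 then 1 else 0) else 0 with hδ
  have hδ1 : par A δ e = 1 := by
    unfold par
    rw [Finset.sum_eq_single x0]
    · rw [Finset.sum_eq_single y0]
      · simp [hδ]
      · intro y _ hy
        simp [hδ, hy]
      · intro h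
        exact absurd hy0 h
    · intro x _ hx
      refine Finset.sum_eq_zero fun y _ => ?_
      simp [hδ, hx]
    · intro h
      exact absurd hx0 h
  have hadd : ∀ M N : V → V → ZMod 2, par A (M + N) e = par A M e + par A N e := by
    intro M N
    unfold par
    rw [← Finset.sum_add_distrib]
    refine Finset.sum_congr rfl fun x _ => ?_
    rw [← Finset.sum_add_distrib]
    rfl
  have hz : ∀ z : ZMod 2, z ≠ 1 ↔ z = 0 := by decide
  have hc : ((univ : Finset (V → V → ZMod 2)).filter fun M => par A M e = 1).card =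
      ((univ : Finset (V → V → ZMod 2)).filter fun M => ¬ par A M e = 1).card := by
    refine Finset.card_bij (fun M _ => M + δ) ?_ ?_ ?_
    · intro M hM
      rw [mem_filter] at hM ⊢
      refine ⟨mem_univ _, ?_⟩
      rw [hadd, hδ1, hM.2]
      decide
    · intro M _ N _ h
      exact add_right_cancel h
    · intro M hM
      rw [mem_filter] at hM
      refine ⟨M - δ, ?_, sub_add_cancel _ _⟩
      rw [mem_filter]
      refine ⟨mem_univ _, ?_⟩
      have h4 := hadd (M - δ) δ
      rw [sub_add_cancel, (hz _).1 hM.2, hδ1] at h4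
      revert h4
      generalize par A (M - δ) e = z
      revert z
      decide
  have hs := Finset.card_filter_add_card_filter_not (s := (univ : Finset (V → V → ZMod 2)))
    (fun M => par A M e = 1)
  rw [card_univ] at hs
  omega

theorem cntM (A e : Finset V) (he : e.card = 4) :
    2 * ((univ : Finset (V → V → ZMod 2)).filter fun M => e ∈ Hg A M).card =
      Fintype.card (V → V → ZMod 2) * q (e ∩ A).card := by
  unfold q
  by_cases h1 : Odd (e ∩ A).card
  · rw [if_pos h1]
    have : ((univ : Finset (V → V → ZMod 2)).filter fun M => e ∈ Hg A M) = univ := by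
      refine filter_true_of_mem fun M _ => ?_
      exact mem_Hg.2 ⟨he, Or.inl h1⟩
    rw [this, card_univ, mul_comm]
  · rw [if_neg h1]
    by_cases h2 : (e ∩ A).card = 2
    · rw [if_pos h2, mul_one, ← half A e he h2]
      congr 2
      ext M
      simp only [mem_filter, mem_univ, true_and]
      rw [mem_Hg]
      constructor
      · rintro ⟨_, h3 | h3⟩
        · exact absurd h3 h1
        · exact h3.2
      · intro h3
        exact ⟨he, Or.inr ⟨h2, h3⟩⟩
    · rw [if_neg h2, mul_zero]
      have : ((univ : Finset (V → V → ZMod 2)).filter fun M => e ∈ Hg A M) = ∅ := by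
        refine filter_false_of_mem fun M _ h3 => ?_
        rcases (mem_Hg.1 h3).2 with h4 | h4
        · exact h1 h4
        · exact h2 h4.1
      rw [this, card_empty, mul_zero]

/-- twice the mean codegree -/
def L (A T : Finset V) : ℕ := (A \ T).card * q ((T ∩ A).card + 1) + (Aᶜ \ T).card * q (T ∩ A).card

theorem sum_codeg (A T : Finset V) (hT : T.card = 3) :
    2 * ∑ M : V → V → ZMod 2, codeg (Hg A M) T = Fintype.card (V → V → ZMod 2) * L A T := by
  have h1 : ∑ M : V → V → ZMod 2, codeg (Hg A M) T =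
      ∑ v ∈ (univ : Finset V).filter (fun v => v ∉ T),
        ((univ : Finset (V → V → ZMod 2)).filter fun M => insert v T ∈ Hg A M).card := by
    have e1 : ∀ M : V → V → ZMod 2, codeg (Hg A M) T =
        ∑ v ∈ (univ : Finset V).filter (fun v => v ∉ T), if insert v T ∈ Hg A M then 1 else 0 := by
      intro M
      unfold codeg
      rw [← filter_filter, card_filter]
    rw [Finset.sum_congr rfl fun M _ => e1 M, Finset.sum_comm]
    refine Finset.sum_congr rfl fun v _ => ?_
    rw [card_filter]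
  rw [h1, Finset.mul_sum]
  have h2 : (univ : Finset V).filter (fun v => v ∉ T) = (A \ T) ∪ (Aᶜ \ T) := by
    ext v
    simp only [mem_filter, mem_univ, true_and, mem_union, mem_sdiff, mem_compl]
    tauto
  have h3 : Disjoint (A \ T) (Aᶜ \ T) :=
    disjoint_of_subset_left sdiff_subset (disjoint_of_subset_right sdiff_subset disjoint_compl_right)
  rw [h2, Finset.sum_union h3]
  have h4 : ∀ v ∈ A \ T, 2 * ((univ : Finset (V → V → ZMod 2)).filter fun M =>
      insert v T ∈ Hg A M).card = Fintype.card (V → V → ZMod 2) * q ((T ∩ A).card + 1) := by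
    intro v hv
    rw [mem_sdiff] at hv
    rw [cntM A (insert v T) (by rw [card_insert_of_notMem hv.2, hT]), insert_inter_of_mem hv.1,
      card_insert_of_notMem fun h => hv.2 (mem_inter.1 h).1]
  have h5 : ∀ v ∈ Aᶜ \ T, 2 * ((univ : Finset (V → V → ZMod 2)).filter fun M =>
      insert v T ∈ Hg A M).card = Fintype.card (V → V → ZMod 2) * q (T ∩ A).card := by
    intro v hv
    rw [mem_sdiff, mem_compl] at hv
    rw [cntM A (insert v T) (by rw [card_insert_of_notMem hv.2, hT]), insert_inter_of_notMem hv.1]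
  rw [Finset.sum_congr rfl h4, Finset.sum_congr rfl h5, Finset.sum_const, Finset.sum_const,
    smul_eq_mul, smul_eq_mul]
  unfold L
  ring

theorem exists_M (A : Finset V) :
    ∃ M : V → V → ZMod 2, ∑ T ∈ (univ : Finset V).powersetCard 3, L A T ^ 2 ≤ 4 * co2 (Hg A M) := by
  have hpos : 0 < Fintype.card (V → V → ZMod 2) := Fintype.card_pos
  have h1 : ∑ _M : V → V → ZMod 2, ∑ T ∈ (univ : Finset V).powersetCard 3, L A T ^ 2 ≤
      ∑ M : V → V → ZMod 2, 4 * co2 (Hg A M) := by
    unfold co2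
    simp only [Finset.mul_sum]
    rw [Finset.sum_comm, Finset.sum_comm (s := (univ : Finset (V → V → ZMod 2)))]
    refine Finset.sum_le_sum fun T hT => ?_
    have hT3 := (mem_powersetCard.1 hT).2
    rw [Finset.sum_const, card_univ, smul_eq_mul, ← Finset.mul_sum]
    have h2 := sum_codeg A T hT3
    have h3 := sq_sum_le_card_mul_sum_sq (s := (univ : Finset (V → V → ZMod 2)))
      (f := fun M => codeg (Hg A M) T)
    rw [card_univ] at h3
    refine Nat.le_of_mul_le_mul_left ?_ hpos
    calc Fintype.card (V → V → ZMod 2) * (Fintype.card (V → V → ZMod 2) * L A T ^ 2)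
        = (Fintype.card (V → V → ZMod 2) * L A T) ^ 2 := by ring
      _ = (2 * ∑ M : V → V → ZMod 2, codeg (Hg A M) T) ^ 2 := by rw [h2]
      _ = 4 * (∑ M : V → V → ZMod 2, codeg (Hg A M) T) ^ 2 := by ring
      _ ≤ 4 * (Fintype.card (V → V → ZMod 2) * ∑ M : V → V → ZMod 2, codeg (Hg A M) T ^ 2) :=
          Nat.mul_le_mul_left _ h3
      _ = _ := by ring
  obtain ⟨M, _, hM⟩ := Finset.exists_le_of_sum_le (univ_nonempty) h1
  exact ⟨M, hM⟩

theorem card_type (A : Finset V) (k : ℕ) (hk : k ≤ 3) :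
    A.card.choose k * Aᶜ.card.choose (3 - k) ≤
      (((univ : Finset V).powersetCard 3).filter fun T => (T ∩ A).card = k).card := by
  rw [← card_powersetCard, ← card_powersetCard, ← card_product]
  have hPA : ∀ P Q : Finset V, P ⊆ A → Q ⊆ Aᶜ → (P ∪ Q) ∩ A = P := by
    intro P Q hP hQ
    rw [union_inter_distrib_right, inter_eq_left.2 hP]
    have : Q ∩ A = ∅ := by
      rw [← disjoint_iff_inter_eq_empty]
      exact disjoint_of_subset_left hQ disjoint_compl_left
    rw [this, union_empty]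
  have hQA : ∀ P Q : Finset V, P ⊆ A → Q ⊆ Aᶜ → (P ∪ Q) ∩ Aᶜ = Q := by
    intro P Q hP hQ
    rw [union_inter_distrib_right, inter_eq_left.2 hQ]
    have : P ∩ Aᶜ = ∅ := by
      rw [← disjoint_iff_inter_eq_empty]
      exact disjoint_of_subset_left hP disjoint_compl_right
    rw [this, empty_union]
  refine Finset.card_le_card_of_injOn (fun p => p.1 ∪ p.2) ?_ ?_
  · rintro ⟨P, Q⟩ hp
    rw [mem_coe, mem_product, mem_powersetCard, mem_powersetCard] at hp
    obtain ⟨⟨hP, hPc⟩, hQ, hQc⟩ := hp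
    simp only at hP hPc hQ hQc
    rw [mem_coe, mem_filter, mem_powersetCard]
    simp only
    refine ⟨⟨subset_univ _, ?_⟩, ?_⟩
    · rw [card_union_of_disjoint, hPc, hQc]
      · omega
      · exact disjoint_of_subset_left hP (disjoint_of_subset_right hQ disjoint_compl_right)
    · rw [hPA P Q hP hQ, hPc]
  · rintro ⟨P, Q⟩ hp ⟨P', Q'⟩ hp' heq
    rw [mem_coe, mem_product, mem_powersetCard, mem_powersetCard] at hp hp'
    simp only at hp hp' heq
    have e1 : P = P' := by
      rw [← hPA P Q hp.1.1 hp.2.1, ← hPA P' Q' hp'.1.1 hp'.2.1, heq]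
    have e2 : Q = Q' := by
      rw [← hQA P Q hp.1.1 hp.2.1, ← hQA P' Q' hp'.1.1 hp'.2.1, heq]
    rw [e1, e2]

/-- `L` depends on the type only -/
theorem L_eq (A T : Finset V) (hT : T.card = 3) : L A T =
    (A.card - (T ∩ A).card) * q ((T ∩ A).card + 1) +
      (Aᶜ.card - (3 - (T ∩ A).card)) * q (T ∩ A).card := by
  unfold L
  have h1 : (A \ T).card = A.card - (T ∩ A).card := by rw [card_sdiff]
  have h2 : (T ∩ Aᶜ).card = 3 - (T ∩ A).card := by
    have h3 := card_inter_add_card_sdiff T A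
    have h4 : T ∩ Aᶜ = T \ A := by
      ext v
      simp only [mem_inter, mem_compl, mem_sdiff]
    rw [h4]
    omega
  have h3 : (Aᶜ \ T).card = Aᶜ.card - (3 - (T ∩ A).card) := by rw [card_sdiff, h2]
  rw [h1, h3]

theorem sum_types (A : Finset V) :
    Aᶜ.card.choose 3 * (2 * A.card) ^ 2 +
      A.card * Aᶜ.card.choose 2 * ((A.card - 1) + 2 * (Aᶜ.card - 2)) ^ 2 +
      A.card.choose 2 * Aᶜ.card * (2 * (A.card - 2) + (Aᶜ.card - 1)) ^ 2 +
      A.card.choose 3 * (2 * Aᶜ.card) ^ 2 ≤
      ∑ T ∈ (univ : Finset V).powersetCard 3, L A T ^ 2 := by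
  rw [← Finset.sum_fiberwise_of_maps_to (s := (univ : Finset V).powersetCard 3)
    (t := Finset.range 4) (g := fun T => (T ∩ A).card)
    (fun T hT => by
      rw [mem_range]
      have h1 := (mem_powersetCard.1 hT).2
      have h2 := card_le_card (inter_subset_left (s₁ := T) (s₂ := A))
      omega) (fun T => L A T ^ 2)]
  have hk : ∀ k ≤ 3, A.card.choose k * Aᶜ.card.choose (3 - k) *
      ((A.card - k) * q (k + 1) + (Aᶜ.card - (3 - k)) * q k) ^ 2 ≤
      ∑ T ∈ ((univ : Finset V).powersetCard 3).filter (fun T => (T ∩ A).card = k), L A T ^ 2 := by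
    intro k hk
    have h1 : ∑ T ∈ ((univ : Finset V).powersetCard 3).filter (fun T => (T ∩ A).card = k),
        L A T ^ 2 = ∑ T ∈ ((univ : Finset V).powersetCard 3).filter (fun T => (T ∩ A).card = k),
        ((A.card - k) * q (k + 1) + (Aᶜ.card - (3 - k)) * q k) ^ 2 := by
      refine Finset.sum_congr rfl fun T hT => ?_
      rw [mem_filter, mem_powersetCard] at hT
      rw [L_eq A T hT.1.2, hT.2]
    rw [h1, Finset.sum_const, smul_eq_mul]
    exact Nat.mul_le_mul_right _ (card_type A k hk)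
  have k0 := hk 0 (by norm_num)
  have k1 := hk 1 (by norm_num)
  have k2 := hk 2 (by norm_num)
  have k3 := hk 3 (by norm_num)
  have q0 : q 0 = 0 := by decide
  have q1 : q 1 = 2 := by decide
  have q2 : q 2 = 1 := by decide
  have q3 : q 3 = 2 := by decide
  have q4 : q 4 = 0 := by decide
  simp only [Nat.choose_zero_right, Nat.choose_one_right, q0, q1, q2, q3, q4, Nat.sub_zero,
    Nat.reduceSub, Nat.reduceAdd, one_mul, mul_one, mul_zero, add_zero, zero_add] at k0 k1 k2 k3
  rw [Finset.sum_range_succ, Finset.sum_range_succ, Finset.sum_range_succ, Finset.sum_range_succ,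
    Finset.sum_range_zero, zero_add]
  refine add_le_add (add_le_add (add_le_add ?_ ?_) ?_) ?_
  · refine le_trans (le_of_eq ?_) k0
    ring
  · refine le_trans (le_of_eq ?_) k1
    ring
  · refine le_trans (le_of_eq ?_) k2
    ring
  · refine le_trans (le_of_eq ?_) k3
    ring

theorem choose_three (m : ℕ) : 6 * (m + 3).choose 3 = (m + 3) * (m + 2) * (m + 1) := by
  have h := Nat.descFactorial_eq_factorial_mul_choose (m + 3) 3
  have e : (m + 3).descFactorial 3 = (m + 1) * ((m + 2) * ((m + 3) * 1)) := by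
    simp [Nat.descFactorial]
  rw [e] at h
  have e2 : Nat.factorial 3 = 6 := rfl
  rw [e2] at h
  rw [← h]
  ring

theorem choose_two (m : ℕ) : 2 * (m + 3).choose 2 = (m + 3) * (m + 2) := by
  have h := Nat.descFactorial_eq_factorial_mul_choose (m + 3) 2
  have e : (m + 3).descFactorial 2 = (m + 2) * ((m + 3) * 1) := by
    simp [Nat.descFactorial]
  rw [e] at h
  have e2 : Nat.factorial 2 = 2 := rfl
  rw [e2] at h
  rw [← h]
  ring

theorem arith_even (m x3 x2 : ℕ) (h3 : 6 * x3 = (m + 3) * (m + 2) * (m + 1))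
    (h2 : 2 * x2 = (m + 3) * (m + 2)) :
    31 * (2 * m + 6) ^ 5 ≤ 96 * (x3 * (2 * (m + 3)) ^ 2 +
      (m + 3) * x2 * ((m + 2) + 2 * (m + 1)) ^ 2 +
      x2 * (m + 3) * (2 * (m + 1) + (m + 2)) ^ 2 + x3 * (2 * (m + 3)) ^ 2) +
      258 * (2 * m + 6) ^ 4 := by
  have e : 96 * (x3 * (2 * (m + 3)) ^ 2 +
      (m + 3) * x2 * ((m + 2) + 2 * (m + 1)) ^ 2 +
      x2 * (m + 3) * (2 * (m + 1) + (m + 2)) ^ 2 + x3 * (2 * (m + 3)) ^ 2) +
      258 * (2 * m + 6) ^ 4 = 31 * (2 * m + 6) ^ 5 +
      (127872 + 135072 * m + 47424 * m ^ 2 + 5536 * m ^ 3) := by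
    have e1 : 96 * (x3 * (2 * (m + 3)) ^ 2 +
      (m + 3) * x2 * ((m + 2) + 2 * (m + 1)) ^ 2 +
      x2 * (m + 3) * (2 * (m + 1) + (m + 2)) ^ 2 + x3 * (2 * (m + 3)) ^ 2) =
      16 * (6 * x3) * (2 * (m + 3)) ^ 2 + 48 * (m + 3) * (2 * x2) * ((m + 2) + 2 * (m + 1)) ^ 2 +
      48 * (2 * x2) * (m + 3) * (2 * (m + 1) + (m + 2)) ^ 2 +
      16 * (6 * x3) * (2 * (m + 3)) ^ 2 := by ring
    rw [e1, h3, h2]
    ring
  rw [e]
  exact Nat.le_add_right _ _

theorem arith_odd (m x3 x2 y3 y2 : ℕ) (h3 : 6 * x3 = (m + 3) * (m + 2) * (m + 1))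
    (h2 : 2 * x2 = (m + 3) * (m + 2)) (g3 : 6 * y3 = (m + 4) * (m + 3) * (m + 2))
    (g2 : 2 * y2 = (m + 4) * (m + 3)) :
    31 * (2 * m + 7) ^ 5 ≤ 96 * (y3 * (2 * (m + 3)) ^ 2 +
      (m + 3) * y2 * ((m + 2) + 2 * (m + 2)) ^ 2 +
      x2 * (m + 4) * (2 * (m + 1) + (m + 3)) ^ 2 + x3 * (2 * (m + 4)) ^ 2) +
      258 * (2 * m + 7) ^ 4 := by
  have e : 96 * (y3 * (2 * (m + 3)) ^ 2 +
      (m + 3) * y2 * ((m + 2) + 2 * (m + 2)) ^ 2 +
      x2 * (m + 4) * (2 * (m + 1) + (m + 3)) ^ 2 + x3 * (2 * (m + 4)) ^ 2) +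
      258 * (2 * m + 7) ^ 4 = 31 * (2 * m + 7) ^ 5 +
      (209417 + 187162 * m + 55416 * m ^ 2 + 5424 * m ^ 3) := by
    have e1 : 96 * (y3 * (2 * (m + 3)) ^ 2 +
      (m + 3) * y2 * ((m + 2) + 2 * (m + 2)) ^ 2 +
      x2 * (m + 4) * (2 * (m + 1) + (m + 3)) ^ 2 + x3 * (2 * (m + 4)) ^ 2) =
      16 * (6 * y3) * (2 * (m + 3)) ^ 2 + 48 * (m + 3) * (2 * y2) * ((m + 2) + 2 * (m + 2)) ^ 2 +
      48 * (2 * x2) * (m + 4) * (2 * (m + 1) + (m + 3)) ^ 2 +
      16 * (6 * x3) * (2 * (m + 4)) ^ 2 := by ring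
    rw [e1, h3, h2, g3, g2]
    ring
  rw [e]
  exact Nat.le_add_right _ _

theorem low_gen (n : ℕ) (hn : Fintype.card V = n) :
    ∃ H : Finset (Finset V), FourGraph H ∧ K5Free H ∧ 31 * n ^ 5 ≤ 384 * co2 H + 258 * n ^ 4 := by
  obtain ⟨A, _, hA⟩ := exists_subset_card_eq (show n / 2 ≤ (univ : Finset V).card by
    rw [card_univ, hn]
    exact Nat.div_le_self _ _)
  obtain ⟨M, hM⟩ := exists_M A
  refine ⟨Hg A M, four A M, k5 A M, ?_⟩
  have hAc : Aᶜ.card = n - n / 2 := by rw [card_compl, hn, hA]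
  have hS := (sum_types A).trans hM
  rw [hA, hAc] at hS
  rcases Nat.lt_or_ge n 6 with h6 | h6
  · calc 31 * n ^ 5 = 31 * n * n ^ 4 := by ring
      _ ≤ 258 * n ^ 4 := Nat.mul_le_mul_right _ (by omega)
      _ ≤ _ := Nat.le_add_left _ _
  · rcases Nat.even_or_odd' n with ⟨k, hk | hk⟩
    · obtain ⟨m, rfl⟩ : ∃ m, k = m + 3 := ⟨k - 3, by omega⟩
      have a1 : n / 2 = m + 3 := by omega
      have a2 : n - n / 2 = m + 3 := by omega
      rw [a2, a1] at hS
      have b1 : m + 3 - 1 = m + 2 := rfl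
      have b2 : m + 3 - 2 = m + 1 := rfl
      rw [b1, b2] at hS
      have h := arith_even m _ _ (choose_three m) (choose_two m)
      have hn2 : n = 2 * m + 6 := by omega
      rw [hn2]
      omega
    · obtain ⟨m, rfl⟩ : ∃ m, k = m + 3 := ⟨k - 3, by omega⟩
      have a1 : n / 2 = m + 3 := by omega
      have a2 : n - n / 2 = m + 4 := by omega
      rw [a2, a1] at hS
      have b1 : m + 3 - 1 = m + 2 := rfl
      have b2 : m + 3 - 2 = m + 1 := rfl
      have b3 : m + 4 - 1 = m + 3 := rfl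
      have b4 : m + 4 - 2 = m + 2 := rfl
      rw [b1, b2, b3, b4] at hS
      have h := arith_odd m _ _ _ _ (choose_three m) (choose_two m) (choose_three (m + 1))
        (choose_two (m + 1))
      have c1 : m + 1 + 3 = m + 4 := rfl
      rw [c1] at h
      have hn2 : n = 2 * m + 7 := by omega
      rw [hn2]
      omega

end

/-- **The lower bound.** -/
theorem low (n : ℕ) : ∃ H : Finset (Finset (Fin n)), FourGraph H ∧ K5Free H ∧
    31 * n ^ 5 ≤ 384 * co2 H + 258 * n ^ 4 :=
  low_gen n (Fintype.card_fin n)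

end Pool.Agent.H63.L2
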